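import Pool.Agent.MWGQ.Stmts

/-! Row GND of squad MWGQ (MP_23468a_al): reduction to the exact period. -/

set_option autoImplicit false

namespace Pool.Agent.MWGQ.H75

open Pool.Agent.MWGQ Pool.Agent.Helper14_MV Pool.Agent.Helper2_MV

variable {β : FIC}

theorem rep_add {α : Type} (a b : ℕ) (x : α) :
    List.replicate (a + b) x = List.replicate a x ++ List.replicate b x := by
  rw [List.replicate_add]

/-- `Z i ~ Z (i + d k)` for `i ≥ 2` -/
theorem z_add {d : ℕ} (h : RR β [0, 0] (Z (d + 2))) {i : ℕ} (hi : 2 ≤ i) :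
    ∀ k : ℕ, RR β (Z i) (Z (i + d * k))
  | 0 => RR.refl _
  | k + 1 => by
    have h1 := z_add h hi k
    have h2 : RR β ([0, 0] ++ Z (i - 2 + d * k)) (Z (d + 2) ++ Z (i - 2 + d * k)) :=
      h.append (RR.refl _)
    have e1 : [0, 0] ++ Z (i - 2 + d * k) = Z (i + d * k) := by
      have : ([0, 0] : List ℕ) = Z 2 := rfl
      rw [this]
      show List.replicate 2 0 ++ List.replicate _ 0 = List.replicate _ 0
      rw [← rep_add]
      congr 1
      omega
    have e2 : Z (d + 2) ++ Z (i - 2 + d * k) = Z (i + d * (k + 1)) := by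
      show List.replicate _ 0 ++ List.replicate _ 0 = List.replicate _ 0
      rw [← rep_add, Nat.mul_succ]
      congr 1
      omega
    rw [e1, e2] at h2
    exact β.trans h1 h2

/-- powers of a letter -/
theorem z_rep {c : ℕ} (i : ℕ) : (Z i).flatMap (fun _ => [c]) = List.replicate i c := by
  induction i with
  | zero => rfl
  | succ i ih =>
    show (List.replicate (i + 1) 0).flatMap (fun _ => [c]) = _
    rw [List.replicate_succ, List.flatMap_cons]
    have ih' : (List.replicate i 0).flatMap (fun _ => [c]) = List.replicate i c := ih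
    rw [ih', List.replicate_succ]
    rfl

/-- ROW GND -/
theorem gnd (hexp : ExpStmt) : GndStmt := by
  intro n β hn hp hncr hgm hnb hc hk
  obtain ⟨d, hd1, ⟨m, hm⟩, hper, he1, hen⟩ := hexp n β hn hp hncr
  have hm1 : 1 ≤ m := by
    rcases Nat.eq_zero_or_pos m with h | h
    · rw [h] at hm
      omega
    · exact h
  have hz : RR β (Z (d + 1)) (Z (n + 1)) := by
    have h1 := z_add (i := d + 1) hper (by omega) (m - 1)
    have e : d + 1 + d * (m - 1) = n + 1 := by
      obtain ⟨t, rfl⟩ : ∃ t, m = t + 1 := ⟨m - 1, by omega⟩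
      rw [hm, Nat.mul_succ]
      simp only [Nat.add_sub_cancel]
      omega
    rw [e] at h1
    exact h1
  have hzc : ∀ c : ℕ, RR β (List.replicate (d + 1) c) (List.replicate (n + 1) c) := by
    intro c
    have h1 := hz.sub (fun _ => [c])
    rw [z_rep, z_rep] at h1
    exact h1
  have hzs : RR β (Z (n + 1)) (Z (d + 1)) := hz.symm
  refine ⟨d, hd1, ⟨hd1, hper, he1, hen, ?_, ?_, ?_, hk⟩, ?_⟩
  · have h1 : RR β ([0, 1] ++ Z (n + 1)) ([0, 1] ++ Z (d + 1)) := (RR.refl _).append hzs
    exact β.trans hgm h1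
  · intro h
    have h1 : RR β (Z (d + 1) ++ ([1] ++ Z (d + 1))) (Z (n + 1) ++ ([1] ++ Z (n + 1))) :=
      hz.append ((RR.refl _).append hz)
    exact hnb (β.trans h h1)
  · have h1 : RR β (Z (d + 1) ++ List.replicate (d + 1) 1) (Z (n + 1) ++ List.replicate (n + 1) 1) :=
      hz.append (hzc 1)
    have h2 : RR β (List.replicate (n + 1) 1 ++ Z (n + 1)) (List.replicate (d + 1) 1 ++ Z (d + 1)) :=
      (RR.symm (hzc 1)).append hzs
    exact β.trans h1 (β.trans hc h2)
  · intro hI p c q x hM
    have h1 : RR β (p ++ (List.replicate (n + 1) x ++ (c ++ x :: q)))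
        (p ++ (List.replicate (d + 1) x ++ (c ++ x :: q))) :=
      (RR.refl _).append ((RR.symm (hzc x)).append (RR.refl _))
    exact β.trans (hI p c q x hM) h1

end Pool.Agent.MWGQ.H75
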