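import Pool.Agent.MWGQ.StmtsC

/-!
# Squad MWGQ, row VCF: `β` keeps `KX` and `KY` (twin of row VCF of MWGN by helper49)
-/

set_option autoImplicit false

namespace Pool.Agent.MWGQ.H75C

open Pool.Agent.Helper14_MV Pool.Agent.Helper2_MV
open Pool.Agent.MWK (pre)
open Pool.Agent.MWF (gaml)
open Pool.Agent.MWGN (Nm WC WT Tau Ns nl sg nn gh Ins WR Nr nr NF tw KF Kx Ky Nx Ny ix iy RunStmt)
open Pool.Agent.MWGQ

theorem sim (hcnt : CntStmt) {n : ℕ} {β : FIC} (hg : Gn n β) {w w' : List ℕ} (h : RR β w w') (c : ℕ)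
    (hc : w.count c = 1) : w'.count c = 1 := by
  rw [(hcnt n β hg w w' h c).1 (by omega), hc]

theorem two (hcnt : CntStmt) {n : ℕ} {β : FIC} (hg : Gn n β) {w w' : List ℕ} (h : RR β w w') (c : ℕ)
    (hc : 2 ≤ w.count c) : 2 ≤ w'.count c := (hcnt n β hg w w' h c).2.1 hc

theorem nn_self (w : List ℕ) (c : ℕ) : nn w c c = 0 := by
  unfold nn
  exact List.count_eq_zero.2 (Pool.Agent.MWK.not_mem_pre w c)

theorem nn_le (w : List ℕ) (c q : ℕ) : nn w c q ≤ w.count c :=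
  Pool.Agent.MWK.count_pre_le w c q

/-- the tails of `NF` are kept -/
theorem wtk (hcnt : CntStmt) (holr : OlrStmt) {n : ℕ} {β : FIC} (hg : Gn n β) (hE : ¬ E0 n β)
    {τ : List ℕ} {m : ℕ} {w w' : List ℕ} (h : RR β w w') (hc : WT NF τ m w) : WT NF τ m w' := by
  have hs : ∀ c, w.count c = 1 → w'.count c = 1 := sim hcnt hg h
  have hO := holr n β hg hE w w' h
  have hbS : ∀ i, NF.b ≠ NF.S i := by
    intro i he
    have he' : (2 : ℕ) = 3 + 3 * i := he
    omega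
  have hSS : ∀ i j, i ≠ j → NF.S i ≠ NF.S j := by
    intro i j hij he
    have he' : 3 + 3 * i = 3 + 3 * j := he
    omega
  refine
    { ss := fun i hi => hs _ (hc.ss i hi)
      oS := fun i hi => ?_
      os := fun i j hi hj hij => ?_
      lt := fun i hi => ?_
      lT := fun i j hi hj hij => ?_ }
  · have h0 := hc.oS i hi
    have h1 : NF.S i ∉ pre w NF.b := List.count_eq_zero.1 h0
    have hw : NF.S i ∈ w := List.count_pos_iff.1 (by rw [hc.ss i hi]; exact Nat.one_pos)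
    have h3 : NF.b ∈ pre w (NF.S i) :=
      (Pool.Agent.MWK.pre_total hw (Ne.symm (hbS i))).resolve_left h1
    have h4 : nn w NF.b (NF.S i) ≠ 0 := fun h4 => (List.count_eq_zero.1 h4) h3
    have h5 : nn w' NF.b (NF.S i) ≠ 0 := fun h5 =>
      h4 ((hO NF.b (NF.S i) (hc.ss i hi) (hbS i)).1.2 h5)
    have h6 : NF.b ∈ pre w' (NF.S i) := List.count_pos_iff.1 (Nat.pos_of_ne_zero h5)
    exact List.count_eq_zero.2 (Pool.Agent.MWK.pre_asymm h6)
  · have hne : i ≠ j := by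
      intro he
      rw [he] at hij
      exact Pool.Agent.MWK.not_mem_pre τ j hij
    exact (hO (NF.S j) (NF.S i) (hc.ss i hi) (hSS j i (Ne.symm hne))).1.1
      (hc.os i j hi hj hij)
  · have h1 := hc.lt i hi
    have hne : NF.L i ≠ NF.S i := by
      intro he
      rw [he, nn_self] at h1
      omega
    exact (hO (NF.L i) (NF.S i) (hc.ss i hi) hne).2.1.1 h1
  · have h1 := hc.lT i j hi hj hij
    have hne : NF.L i ≠ NF.S j := by
      intro he
      rw [he, nn_self, hc.ss j hj] at h1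
      omega
    exact (hO (NF.L i) (NF.S j) (hc.ss j hj) hne).2.2.1 h1

/-- `KF` is kept -/
theorem kfk (hcnt : CntStmt) (holr : OlrStmt) (htlr : TlrStmt) {n : ℕ} {β : FIC} (hg : Gn n β)
    (hE : ¬ E0 n β) (hP : ¬ P0 n β) (hA : ¬ A0 n β) {τ : List ℕ} {r : ℕ} {w w' : List ℕ}
    (h : RR β w w') (hc : KF τ r w) : KF τ r w' := by
  have hs : ∀ c, w.count c = 1 → w'.count c = 1 := sim hcnt hg h
  have h2 : ∀ c, 2 ≤ w.count c → 2 ≤ w'.count c := fun c => two hcnt hg h c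
  have hO := holr n β hg hE w w' h
  have hT := htlr n β hg hE hP w w' h
  have hT' := htlr n β hg hE hP w' w h.symm
  have hne : ∀ c s, 2 ≤ w.count c → w.count s = 1 → c ≠ s := by
    intro c s h1 h2 he
    rw [he] at h1
    omega
  have xb' : nn w' 0 2 = w'.count 0 := (hO 0 2 hc.sb (hne _ _ hc.x2 hc.sb)).2.2.1 hc.xb
  have yb' : nn w' 1 2 = w'.count 1 := (hO 1 2 hc.sb (hne _ _ hc.y2 hc.sb)).2.2.1 hc.yb
  have lb' : ∀ i ≤ r + 2, nn w' (NF.L i) 2 = 1 := fun i hi =>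
    (hO _ 2 hc.sb (hne _ _ (hc.l2 i hi) hc.sb)).2.1.1 (hc.lb i hi)
  have l2' : ∀ i ≤ r + 2, 2 ≤ w'.count (NF.L i) := fun i hi => h2 _ (hc.l2 i hi)
  refine
    { sb := hs _ hc.sb
      x2 := h2 _ hc.x2
      y2 := h2 _ hc.y2
      xb := xb'
      yb := yb'
      l2 := l2'
      lb := lb'
      c2 := fun i hi hir => h2 _ (hc.c2 i hi hir)
      cb := fun i hi hir => (hO _ 2 hc.sb (hne _ _ (hc.c2 i hi hir) hc.sb)).2.2.1
        (hc.cb i hi hir)
      x0 := ?_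
      xr := ?_
      xt := (hT 0 (NF.L (r + 2)) 2 hc.sb hc.x2 (hc.l2 _ le_rfl) (hc.lb _ le_rfl) hc.xb).1 hA
        hc.xt
      y0 := (hT 1 (NF.L 0) 2 hc.sb hc.y2 (hc.l2 0 (by omega)) (hc.lb 0 (by omega)) hc.yb).2.1
        hc.y0
      y1 := ?_
      yr := ?_
      cl0 := fun i hi hir j hj => (hT (NF.C i) (NF.L j) 2 hc.sb (hc.c2 i hi hir)
        (hc.l2 j (by omega)) (hc.lb j (by omega)) (hc.cb i hi hir)).2.1 (hc.cl0 i hi hir j hj)
      cl1 := fun i hi hir j hij hj => (hT (NF.C i) (NF.L j) 2 hc.sb (hc.c2 i hi hir)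
        (hc.l2 j hj) (hc.lb j hj) (hc.cb i hi hir)).1 hA (hc.cl1 i hi hir j hij hj)
      wt := wtk hcnt holr hg hE h hc.wt }
  · by_contra hlt
    have h0 : nn w' 0 (NF.L 0) = 0 := by omega
    have h1 := (hT' 0 (NF.L 0) 2 (hs _ hc.sb) (h2 _ hc.x2) (l2' 0 (by omega))
      (lb' 0 (by omega)) xb').2.1 h0
    have h3 := hc.x0
    omega
  · refine lt_of_le_of_ne (nn_le _ _ _) (fun h0 => ?_)
    have h1 := (hT' 0 (NF.L (r + 1)) 2 (hs _ hc.sb) (h2 _ hc.x2) (l2' _ (by omega))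
      (lb' _ (by omega)) xb').1 hA h0
    have h3 := hc.xr
    omega
  · by_contra hlt
    have h0 : nn w' 1 (NF.L 1) = 0 := by omega
    have h1 := (hT' 1 (NF.L 1) 2 (hs _ hc.sb) (h2 _ hc.y2) (l2' 1 (by omega))
      (lb' 1 (by omega)) yb').2.1 h0
    have h3 := hc.y1
    omega
  · refine lt_of_le_of_ne (nn_le _ _ _) (fun h0 => ?_)
    have h1 := (hT' 1 (NF.L (r + 2)) 2 (hs _ hc.sb) (h2 _ hc.y2) (l2' _ le_rfl)
      (lb' _ le_rfl) yb').1 hA h0
    have h3 := hc.yr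
    omega

/-- residues are kept -/
theorem rfk (hcnt : CntStmt) {n : ℕ} {β : FIC} (hg : Gn n β) {r : ℕ} {w w' : List ℕ}
    (h : RR β w w') (hc : RF n r w) : RF n r w' := by
  have hm : ∀ c, w'.count c ≡ w.count c [MOD n] := fun c => ((hcnt n β hg w w' h c).2.2).symm
  exact ⟨fun i hi => (hm _).trans (hc.1 i hi), fun i hi hir => (hm _).trans (hc.2 i hi hir)⟩

/-- residues for the first run -/
theorem rrx {n r : ℕ} {w : List ℕ} (hc : RF n r w) : Rr n Nx r w := by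
  refine ⟨fun i hi => ?_, fun i hi => ?_⟩
  · have h1 : ix i ≤ r + 2 := by
      unfold ix
      split <;> omega
    exact hc.1 (ix i) h1
  · exact hc.2 (i + 1) (by omega) (by omega)

/-- residues for the second run -/
theorem rry {n r : ℕ} {w : List ℕ} (hc : RF n r w) : Rr n (Ny r) r w := by
  refine ⟨fun i hi => ?_, fun i hi => ?_⟩
  · have h1 : iy r i ≤ r + 2 := by
      unfold iy
      split <;> omega
    exact hc.1 (iy r i) h1
  · exact hc.2 (i + 1) (by omega) (by omega)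

/-- **VCF** -/
theorem vcf (holr : OlrStmt) (htlr : TlrStmt) (hcnt : CntStmt) (hveq : VeqStmt) (hrun : RunStmt)
    (hfaa : FaaStmt) (hfap : FapStmt) : VcfStmt := by
  intro n β hG τ r hr hτ hmin hFB w w' h
  have hA : ¬ A0 n β := fun hA => hFB (hfaa n β hG hA r τ hτ)
  have hP : ¬ P0 n β := fun hP => hFB (hfap n β hG hP r τ hτ)
  have hE : ¬ E0 n β := by
    intro h
    have h1 : RR β ([0, 0, 1] ++ [2, 1]) (([0, 0, 1] ++ Z n) ++ [2, 1]) :=
      RR.append h (RR.refl (β := β) [2, 1])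
    rw [List.append_assoc] at h1
    exact hA h1
  have hk : KF τ r w → KF τ r w' := fun hc => kfk hcnt holr htlr hG hE hP hA h hc
  constructor
  · rintro ⟨⟨hc, he⟩, hrf⟩
    refine ⟨⟨hk hc, ?_⟩, rfk hcnt hG h hrf⟩
    obtain ⟨a1, a2, -, -, a5, -⟩ := hrun τ r hr hτ w hc
    obtain ⟨b1, b2, -, -, -, -⟩ := hrun τ r hr hτ w' (hk hc)
    have hv := hveq n β hG Nx τ r a5 hτ hmin hFB w w' h a1 a2 b1 b2 (rrx hrf)
    have e0 : Nx.L 0 = NF.L 0 := rfl
    have e1 : Nx.L r = NF.L (r + 1) := by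
      show NF.L (ix r) = NF.L (r + 1)
      rw [ix, if_neg (by omega)]
    have e2 : Nx.x = 0 := rfl
    rw [e0, e1, e2] at hv
    exact hv he
  · rintro ⟨⟨hc, he⟩, hrf⟩
    refine ⟨⟨hk hc, ?_⟩, rfk hcnt hG h hrf⟩
    obtain ⟨-, -, a3, a4, -, a6⟩ := hrun τ r hr hτ w hc
    obtain ⟨-, -, b3, b4, -, -⟩ := hrun τ r hr hτ w' (hk hc)
    have hv := hveq n β hG (Ny r) τ r a6 hτ hmin hFB w w' h a3 a4 b3 b4 (rry hrf)
    have e0 : (Ny r).L 0 = NF.L 1 := by
      show NF.L (iy r 0) = NF.L 1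
      rw [iy, if_neg (by omega)]
    have e1 : (Ny r).L r = NF.L (r + 2) := by
      show NF.L (iy r r) = NF.L (r + 2)
      rw [iy, if_pos rfl]
    have e2 : (Ny r).x = 1 := rfl
    rw [e0, e1, e2] at hv
    exact hv he

end Pool.Agent.MWGQ.H75C
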